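import Mathlib

/-!
# MP_f4f8d7_an : vertically rigid functions admitting a non-translation isometry

There is a Borel measurable vertically rigid `f : ℝ → ℝ`, not of the form `a + b x`, such that
for *every* `c > 0` a glide reflection (neither a translation nor a reflection) carries
`graph (c f)` onto `graph f`.
-/

open Filter Topology Set

namespace Pool.Agent.Results.MP_f4f8d7_an.BorelGlide

/-- The Euclidean plane. -/
abbrev Plane := EuclideanSpace ℝ (Fin 2)

/-- The graph of `f : ℝ → ℝ` as a subset of the Euclidean plane. -/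
def graph (f : ℝ → ℝ) : Set Plane := {p | p 1 = f (p 0)}

/-- `φ` is a translation of the plane. -/
def IsTranslation (φ : Plane → Plane) : Prop := ∃ v : Plane, ∀ p, φ p = p + v

/-- `φ` is the reflection in the line through `q` with unit direction `v`. -/
def IsReflection (φ : Plane → Plane) : Prop :=
  ∃ q v : Plane, ‖v‖ = 1 ∧ ∀ p, φ p = (2 : ℝ) • (q + (inner ℝ v (p - q) : ℝ) • v) - p

/-- `f` is vertically rigid: for every `c > 0` some isometry (distance-preserving bijection) of the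
plane carries `graph (c f)` onto `graph f`. -/
def VerticallyRigid (f : ℝ → ℝ) : Prop :=
  ∀ c : ℝ, 0 < c → ∃ φ : Plane ≃ᵢ Plane, φ '' graph (fun x => c * f x) = graph f

/-! ### The Borel group and its two homomorphisms -/

/-- the scale `2 ^ (n ^ 2)` -/
noncomputable def M (n : ℕ) : ℝ := 2 ^ (n * n)

lemma M_pos (n : ℕ) : 0 < M n := by unfold M; positivity

lemma M_succ (n : ℕ) : M (n + 1) = 2 ^ (2 * n + 1) * M n := by
  unfold M; rw [← pow_add]; congr 1; ring

/-- `W x k a b` : the integers `k n` approximate `M n * x` and their digits have growth `a, b`. -/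
def W (x : ℝ) (k : ℕ → ℤ) (a b : ℝ) : Prop :=
  Tendsto (fun n => M n * x - k n) atTop (𝓝 0) ∧
  Tendsto (fun n => ((k (2 * n + 1) : ℝ) - 2 ^ (4 * n + 1) * k (2 * n)) / (n + 1)) atTop (𝓝 a) ∧
  Tendsto (fun n => ((k (2 * n + 2) : ℝ) - 2 ^ (4 * n + 3) * k (2 * n + 1)) / (n + 1)) atTop (𝓝 b)

/-- the nearest integers -/
noncomputable def r (x : ℝ) (n : ℕ) : ℤ := ⌊M n * x + 1 / 2⌋

lemma W.add {x y : ℝ} {k l : ℕ → ℤ} {a b a' b' : ℝ} (h : W x k a b) (h' : W y l a' b') :
    W (x + y) (fun n => k n + l n) (a + a') (b + b') := by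
  obtain ⟨h1, h2, h3⟩ := h
  obtain ⟨g1, g2, g3⟩ := h'
  refine ⟨?_, ?_, ?_⟩
  · have := h1.add g1
    rw [add_zero] at this
    refine this.congr (fun n => ?_)
    push_cast; ring
  · refine (h2.add g2).congr (fun n => ?_)
    push_cast; ring
  · refine (h3.add g3).congr (fun n => ?_)
    push_cast; ring

lemma W.neg {x : ℝ} {k : ℕ → ℤ} {a b : ℝ} (h : W x k a b) :
    W (-x) (fun n => - k n) (-a) (-b) := by
  obtain ⟨h1, h2, h3⟩ := h
  refine ⟨?_, ?_, ?_⟩
  · have := h1.neg
    rw [neg_zero] at this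
    refine this.congr (fun n => ?_)
    push_cast; ring
  · refine h2.neg.congr (fun n => ?_)
    push_cast; ring
  · refine h3.neg.congr (fun n => ?_)
    push_cast; ring

lemma eq_r_of_tendsto {x : ℝ} {k : ℕ → ℤ}
    (h : Tendsto (fun n => M n * x - k n) atTop (𝓝 0)) : ∀ᶠ n in atTop, k n = r x n := by
  have h1 : ∀ᶠ n in atTop, |M n * x - k n| < 1 / 2 := by
    have := (tendsto_order.1 h.abs).2 (1 / 2) (by norm_num)
    simpa using this
  filter_upwards [h1] with n hn
  rw [abs_lt] at hn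
  unfold r
  symm
  rw [Int.floor_eq_iff]
  constructor <;> linarith [hn.1, hn.2]

lemma W.toR {x : ℝ} {k : ℕ → ℤ} {a b : ℝ} (h : W x k a b) : W x (r x) a b := by
  have he := eq_r_of_tendsto h.1
  obtain ⟨h1, h2, h3⟩ := h
  obtain ⟨N, hN⟩ := eventually_atTop.1 he
  refine ⟨?_, ?_, ?_⟩
  · refine h1.congr' ?_
    filter_upwards [he] with n hn
    rw [hn]
  · refine h2.congr' ?_
    filter_upwards [eventually_ge_atTop N] with n hn
    rw [hN (2 * n + 1) (by omega), hN (2 * n) (by omega)]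
  · refine h3.congr' ?_
    filter_upwards [eventually_ge_atTop N] with n hn
    rw [hN (2 * n + 1) (by omega), hN (2 * n + 2) (by omega)]

/-- the digit functions -/
noncomputable def dA (n : ℕ) (x : ℝ) : ℝ :=
  ((r x (2 * n + 1) : ℝ) - 2 ^ (4 * n + 1) * r x (2 * n)) / (n + 1)

noncomputable def dB (n : ℕ) (x : ℝ) : ℝ :=
  ((r x (2 * n + 2) : ℝ) - 2 ^ (4 * n + 3) * r x (2 * n + 1)) / (n + 1)

/-- the Borel subgroup -/
def G : Set ℝ := {x | ∃ a b, W x (r x) a b}

noncomputable def phiA (x : ℝ) : ℝ := limUnder atTop (fun n => dA n x)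

noncomputable def phiB (x : ℝ) : ℝ := limUnder atTop (fun n => dB n x)

lemma W.phi {x : ℝ} {a b : ℝ} (h : W x (r x) a b) : phiA x = a ∧ phiB x = b :=
  ⟨h.2.1.limUnder_eq, h.2.2.limUnder_eq⟩

open Classical in
/-- the function -/
noncomputable def f (x : ℝ) : ℝ :=
  if x ∈ G then (if Even ⌊phiB x⌋ then 1 else -1) * Real.exp (phiA x) else 0

lemma measurable_r (n : ℕ) : Measurable (fun x => r x n) := by
  unfold r
  exact Int.measurable_floor.comp ((measurable_const.mul measurable_id).add_const _)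

lemma measurable_rR (n : ℕ) : Measurable (fun x => (r x n : ℝ)) :=
  (measurable_from_top (f := fun z : ℤ => (z : ℝ))).comp (measurable_r n)

lemma measurable_dA (n : ℕ) : Measurable (dA n) := by
  unfold dA
  exact ((measurable_rR _).sub ((measurable_rR _).const_mul _)).div_const _

lemma measurable_dB (n : ℕ) : Measurable (dB n) := by
  unfold dB
  exact ((measurable_rR _).sub ((measurable_rR _).const_mul _)).div_const _

lemma measurable_phiA : Measurable phiA :=
  (MeasureTheory.StronglyMeasurable.limUnder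
    (fun n => (measurable_dA n).stronglyMeasurable)).measurable

lemma measurable_phiB : Measurable phiB :=
  (MeasureTheory.StronglyMeasurable.limUnder
    (fun n => (measurable_dB n).stronglyMeasurable)).measurable

lemma measurableSet_G : MeasurableSet G := by
  have : G = {x | Tendsto (fun n => M n * x - r x n) atTop (𝓝 0)} ∩
      ({x | ∃ c, Tendsto (fun n => dA n x) atTop (𝓝 c)} ∩
       {x | ∃ c, Tendsto (fun n => dB n x) atTop (𝓝 c)}) := by
    ext x
    constructor
    · rintro ⟨a, b, h⟩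
      exact ⟨h.1, ⟨a, h.2.1⟩, ⟨b, h.2.2⟩⟩
    · rintro ⟨h1, ⟨a, h2⟩, ⟨b, h3⟩⟩
      exact ⟨a, b, h1, h2, h3⟩
  rw [this]
  refine MeasurableSet.inter ?_ (MeasurableSet.inter ?_ ?_)
  · exact MeasureTheory.measurableSet_tendsto_fun
      (fun n => (measurable_id.const_mul _).sub (measurable_rR n)) measurable_const
  · exact MeasureTheory.measurableSet_exists_tendsto (fun n => measurable_dA n)
  · exact MeasureTheory.measurableSet_exists_tendsto (fun n => measurable_dB n)

lemma measurable_f : Measurable f := by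
  unfold f
  refine Measurable.ite measurableSet_G ?_ measurable_const
  refine Measurable.mul ?_ (Real.measurable_exp.comp measurable_phiA)
  refine Measurable.ite ?_ measurable_const measurable_const
  exact (Int.measurable_floor.comp measurable_phiB) (t := {z : ℤ | Even z})
    (MeasurableSet.of_discrete)

/-! ### existence of points with given growth -/

lemma floor_lim (a : ℝ) :
    Tendsto (fun n : ℕ => (⌊a * ((n : ℝ) + 1)⌋ : ℝ) / (n + 1)) atTop (𝓝 a) := by
  have h1 : Tendsto (fun n : ℕ => a - 1 / ((n : ℝ) + 1)) atTop (𝓝 a) := by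
    have := (tendsto_one_div_add_atTop_nhds_zero_nat (𝕜 := ℝ)).const_sub a
    simpa using this
  refine tendsto_of_tendsto_of_tendsto_of_le_of_le h1 tendsto_const_nhds ?_ ?_
  · intro n
    have hn : (0 : ℝ) < n + 1 := by positivity
    have h2 := Int.lt_floor_add_one (a * ((n : ℝ) + 1))
    show a - 1 / ((n : ℝ) + 1) ≤ _
    rw [le_div_iff₀ hn, sub_mul, one_div, inv_mul_cancel₀ hn.ne']
    linarith
  · intro n
    have hn : (0 : ℝ) < n + 1 := by positivity
    have h2 := Int.floor_le (a * ((n : ℝ) + 1))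
    show _ ≤ a
    rw [div_le_iff₀ hn]
    exact h2

lemma exists_W (a b : ℝ) : ∃ x k, W x k a b := by
  -- the digits
  let s : ℕ → ℤ := fun n => if Even n then ⌊a * ((n / 2 : ℕ) + 1 : ℝ)⌋ else ⌊b * ((n / 2 : ℕ) + 1 : ℝ)⌋
  obtain ⟨k, hk⟩ : ∃ k : ℕ → ℤ, ∀ n, k (n + 1) = 2 ^ (2 * n + 1) * k n + s n :=
    ⟨fun n => Nat.rec 0 (fun n z => 2 ^ (2 * n + 1) * z + s n) n, fun n => rfl⟩
  obtain ⟨C, hC0, hC⟩ : ∃ C : ℝ, 0 ≤ C ∧ ∀ n, |(s n : ℝ)| ≤ C * 2 ^ n := by
    refine ⟨|a| + |b| + 1, by positivity, fun n => ?_⟩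
    have h2 : (((n / 2 : ℕ) : ℝ) + 1) ≤ 2 ^ n := by
      have h3 : n / 2 + 1 ≤ 2 ^ n := by
        have : n < 2 ^ n := Nat.lt_two_pow_self
        omega
      exact_mod_cast h3
    have h1 : (1 : ℝ) ≤ 2 ^ n := one_le_pow₀ (by norm_num)
    have key : ∀ e : ℝ, |(⌊e * ((n / 2 : ℕ) + 1 : ℝ)⌋ : ℝ)| ≤ (|e| + 1) * 2 ^ n := by
      intro e
      have h4 := Int.floor_le (e * ((n / 2 : ℕ) + 1 : ℝ))
      have h5 := Int.lt_floor_add_one (e * ((n / 2 : ℕ) + 1 : ℝ))
      have h6 : |e * ((n / 2 : ℕ) + 1 : ℝ)| ≤ |e| * 2 ^ n := by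
        rw [abs_mul]
        refine mul_le_mul_of_nonneg_left ?_ (abs_nonneg _)
        rw [abs_of_nonneg (by positivity)]
        exact h2
      rw [abs_le] at h6 ⊢
      constructor <;> nlinarith [h6.1, h6.2]
    show |((if Even n then ⌊a * ((n / 2 : ℕ) + 1 : ℝ)⌋ else ⌊b * ((n / 2 : ℕ) + 1 : ℝ)⌋ : ℤ) : ℝ)| ≤ _
    split_ifs
    · refine (key a).trans ?_
      refine mul_le_mul_of_nonneg_right ?_ (by positivity)
      linarith [abs_nonneg b]
    · refine (key b).trans ?_
      refine mul_le_mul_of_nonneg_right ?_ (by positivity)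
      linarith [abs_nonneg a]
  -- the approximations
  let u : ℕ → ℝ := fun n => (k n : ℝ) / M n
  have hu : ∀ n, dist (u n) (u (n + 1)) = |(s n : ℝ)| / M (n + 1) := by
    intro n
    have h1 : u (n + 1) = u n + s n / M (n + 1) := by
      show (k (n + 1) : ℝ) / M (n + 1) = k n / M n + s n / M (n + 1)
      rw [hk, M_succ]
      have := (M_pos n).ne'
      push_cast
      field_simp
    rw [h1, Real.dist_eq]
    rw [show u n - (u n + s n / M (n + 1)) = -(s n / M (n + 1)) by ring, abs_neg, abs_div,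
      abs_of_pos (M_pos _)]
  have hu2 : ∀ N j, dist (u (N + j)) (u (N + j + 1)) ≤
      (C * (1 / M N) * (1 / 2) ^ (N + 1)) * (1 / 2) ^ j := by
    intro N j
    rw [hu]
    rw [div_le_iff₀ (M_pos _)]
    refine (hC (N + j)).trans ?_
    have h1 : (C * (1 / M N) * (1 / 2) ^ (N + 1)) * (1 / 2) ^ j * M (N + j + 1) =
        C * 2 ^ (N + j) * (2 ^ (2 * N * j + j * j) ) := by
      have h2 : M (N + j + 1) = M N * 2 ^ (N + 1) * 2 ^ j * (2 ^ (N + j) * 2 ^ (2 * N * j + j * j)) := by
        unfold M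
        rw [← pow_add, ← pow_add, ← pow_add, ← pow_add]
        congr 1
        ring
      rw [h2]
      have h3 := (M_pos N).ne'
      have h5 : (1 / 2 : ℝ) ^ (N + 1) * 2 ^ (N + 1) = 1 := by rw [← mul_pow]; norm_num
      have h6 : (1 / 2 : ℝ) ^ j * 2 ^ j = 1 := by rw [← mul_pow]; norm_num
      have h7 : 1 / M N * M N = 1 := by rw [one_div, inv_mul_cancel₀ h3]
      calc C * (1 / M N) * (1 / 2) ^ (N + 1) * (1 / 2) ^ j *
            (M N * 2 ^ (N + 1) * 2 ^ j * (2 ^ (N + j) * 2 ^ (2 * N * j + j * j)))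
          = C * (1 / M N * M N) * ((1 / 2) ^ (N + 1) * 2 ^ (N + 1)) * ((1 / 2) ^ j * 2 ^ j) *
            (2 ^ (N + j) * 2 ^ (2 * N * j + j * j)) := by ring
        _ = C * 2 ^ (N + j) * 2 ^ (2 * N * j + j * j) := by rw [h5, h6, h7]; ring
    rw [h1]
    have : (1 : ℝ) ≤ 2 ^ (2 * N * j + j * j) := one_le_pow₀ (by norm_num)
    nlinarith [mul_nonneg hC0 (show (0:ℝ) ≤ 2 ^ (N + j) by positivity)]
  have hcau : CauchySeq u := by
    refine cauchySeq_of_le_geometric (1 / 2) (C * (1 / M 0) * (1 / 2) ^ (0 + 1)) (by norm_num) ?_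
    intro n
    have := hu2 0 n
    simpa using this
  obtain ⟨x, hx⟩ := cauchySeq_tendsto_of_complete hcau
  refine ⟨x, k, ?_, ?_, ?_⟩
  · have hb : ∀ N, |M N * x - k N| ≤ C * (1 / 2) ^ N := by
      intro N
      have h1 : dist (u N) x ≤ (C * (1 / M N) * (1 / 2) ^ (N + 1)) / (1 - 1 / 2) := by
        have h2 := dist_le_of_le_geometric_of_tendsto₀ (1 / 2) (C * (1 / M N) * (1 / 2) ^ (N + 1))
          (by norm_num) (f := fun j => u (N + j)) (fun j => hu2 N j)
          (a := x) (hx.comp (tendsto_add_atTop_iff_nat N |>.2 tendsto_id |>.congr (fun j => by simp [add_comm])))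
        simpa using h2
      have h3 : |M N * x - k N| = M N * dist (u N) x := by
        rw [Real.dist_eq, ← abs_of_pos (M_pos N), ← abs_mul, abs_of_pos (M_pos N), abs_sub_comm]
        congr 1
        show (k N : ℝ) - M N * x = M N * (k N / M N - x)
        have := (M_pos N).ne'
        field_simp
      rw [h3]
      calc M N * dist (u N) x ≤ M N * ((C * (1 / M N) * (1 / 2) ^ (N + 1)) / (1 - 1 / 2)) :=
            mul_le_mul_of_nonneg_left h1 (M_pos N).le
        _ = C * (1 / 2) ^ N := by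
            have := (M_pos N).ne'
            field_simp
            ring
    have h0 : Tendsto (fun N : ℕ => C * (1 / 2 : ℝ) ^ N) atTop (𝓝 0) := by
      have := (tendsto_pow_atTop_nhds_zero_of_lt_one (r := (1 / 2 : ℝ)) (by norm_num)
        (by norm_num)).const_mul C
      simpa using this
    exact squeeze_zero_norm (fun N => hb N) h0
  · have h1 : ∀ n : ℕ, ((k (2 * n + 1) : ℝ) - 2 ^ (4 * n + 1) * k (2 * n)) / (n + 1) =
        (⌊a * ((n : ℝ) + 1)⌋ : ℝ) / (n + 1) := by
      intro n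
      rw [hk]
      have h2 : s (2 * n) = ⌊a * ((n : ℝ) + 1)⌋ := by
        show (if Even (2 * n) then _ else _) = _
        rw [if_pos (by simp)]
        simp
      rw [h2]
      push_cast
      ring
    simp_rw [h1]
    exact floor_lim a
  · have h1 : ∀ n : ℕ, ((k (2 * n + 2) : ℝ) - 2 ^ (4 * n + 3) * k (2 * n + 1)) / (n + 1) =
        (⌊b * ((n : ℝ) + 1)⌋ : ℝ) / (n + 1) := by
      intro n
      rw [hk (2 * n + 1)]
      have h2 : s (2 * n + 1) = ⌊b * ((n : ℝ) + 1)⌋ := by
        show (if Even (2 * n + 1) then _ else _) = _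
        rw [if_neg (by simp)]
        have : (2 * n + 1) / 2 = n := by omega
        rw [this]
      rw [h2]
      push_cast
      ring
    simp_rw [h1]
    exact floor_lim b

/-! ### the group structure -/

lemma mem_G_iff {x : ℝ} : x ∈ G ↔ ∃ k a b, W x k a b := by
  constructor
  · rintro ⟨a, b, h⟩
    exact ⟨_, a, b, h⟩
  · rintro ⟨k, a, b, h⟩
    exact ⟨a, b, h.toR⟩

lemma W.phi' {x : ℝ} {k : ℕ → ℤ} {a b : ℝ} (h : W x k a b) : phiA x = a ∧ phiB x = b :=
  h.toR.phi

lemma G_add {x y : ℝ} (hx : x ∈ G) (hy : y ∈ G) : x + y ∈ G ∧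
    phiA (x + y) = phiA x + phiA y ∧ phiB (x + y) = phiB x + phiB y := by
  obtain ⟨k, a, b, h⟩ := mem_G_iff.1 hx
  obtain ⟨l, a', b', h'⟩ := mem_G_iff.1 hy
  have := h.add h'
  refine ⟨mem_G_iff.2 ⟨_, _, _, this⟩, ?_, ?_⟩
  · rw [this.phi'.1, h.phi'.1, h'.phi'.1]
  · rw [this.phi'.2, h.phi'.2, h'.phi'.2]

lemma G_neg {x : ℝ} (hx : x ∈ G) : -x ∈ G := by
  obtain ⟨k, a, b, h⟩ := mem_G_iff.1 hx
  exact mem_G_iff.2 ⟨_, _, _, h.neg⟩

lemma exists_G (a b : ℝ) : ∃ x ∈ G, phiA x = a ∧ phiB x = b := by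
  obtain ⟨x, k, h⟩ := exists_W a b
  exact ⟨x, mem_G_iff.2 ⟨_, _, _, h⟩, h.phi'⟩

lemma f_of_mem {x : ℝ} (hx : x ∈ G) :
    f x = (if Even ⌊phiB x⌋ then 1 else -1) * Real.exp (phiA x) := by
  unfold f; rw [if_pos hx]

lemma f_of_notMem {x : ℝ} (hx : x ∉ G) : f x = 0 := by
  unfold f; rw [if_neg hx]

lemma add_mem_iff {x t : ℝ} (ht : t ∈ G) : x + t ∈ G ↔ x ∈ G := by
  constructor
  · intro h
    have := (G_add h (G_neg ht)).1
    simpa using this
  · intro h
    exact (G_add h ht).1

/-- horizontal translations multiply `f` by a positive constant -/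
lemma f_add_t {t s : ℝ} (ht : t ∈ G) (hA : phiA t = s) (hB : phiB t = 0) (x : ℝ) :
    f (x + t) = Real.exp s * f x := by
  by_cases hx : x ∈ G
  · have h := G_add hx ht
    rw [f_of_mem h.1, f_of_mem hx, h.2.1, h.2.2, hA, hB, add_zero, Real.exp_add]
    ring
  · rw [f_of_notMem hx, f_of_notMem (fun h => hx ((add_mem_iff ht).1 h)), mul_zero]

lemma f_add_u {t s : ℝ} (ht : t ∈ G) (hA : phiA t = s) (hB : phiB t = 1) (x : ℝ) :
    f (x + t) = - (Real.exp s * f x) := by
  by_cases hx : x ∈ G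
  · have h := G_add hx ht
    rw [f_of_mem h.1, f_of_mem hx, h.2.1, h.2.2, hA, hB, Real.exp_add]
    have h1 : ⌊phiB x + 1⌋ = ⌊phiB x⌋ + 1 := by simp
    rw [h1]
    by_cases he : Even ⌊phiB x⌋
    · rw [if_pos he, if_neg (by rw [Int.even_add_one]; simpa using he)]
      ring
    · rw [if_neg he, if_pos (by rw [Int.even_add_one]; exact he)]
      ring
  · rw [f_of_notMem hx, f_of_notMem (fun h => hx ((add_mem_iff ht).1 h)), mul_zero, neg_zero]

/-! ### isometries of the plane -/

/-- the translation by `(t, 0)` -/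
noncomputable def trans (t : ℝ) : Plane ≃ᵢ Plane :=
  IsometryEquiv.addRight (!₂[t, 0] : Plane)

lemma trans_zero (t : ℝ) (p : Plane) : trans t p 0 = p 0 + t := by
  simp [trans]

lemma trans_one (t : ℝ) (p : Plane) : trans t p 1 = p 1 := by
  simp [trans]

/-- the reflection in the horizontal axis -/
noncomputable def refl : Plane ≃ᵢ Plane where
  toFun p := !₂[p 0, - p 1]
  invFun p := !₂[p 0, - p 1]
  left_inv p := by ext i; fin_cases i <;> simp
  right_inv p := by ext i; fin_cases i <;> simp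
  isometry_toFun := by
    apply Isometry.of_dist_eq
    intro p q
    rw [EuclideanSpace.dist_eq, EuclideanSpace.dist_eq]
    simp only [Fin.sum_univ_two]
    simp [Real.dist_eq]

/-- the glide reflection `(x, y) ↦ (x + t, -y)` -/
noncomputable def glide (t : ℝ) : Plane ≃ᵢ Plane := refl.trans (trans t)

lemma glide_zero (t : ℝ) (p : Plane) : glide t p 0 = p 0 + t := by
  simp [glide, trans, refl]

lemma glide_one (t : ℝ) (p : Plane) : glide t p 1 = - p 1 := by
  simp [glide, trans, refl]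

lemma glide_not_translation (t : ℝ) : ¬ IsTranslation (glide t) := by
  rintro ⟨v, hv⟩
  have h0 := congrArg (fun q : Plane => q 1) (hv 0)
  have h1 := congrArg (fun q : Plane => q 1) (hv !₂[0, 1])
  simp only [glide_one] at h0 h1
  simp at h0 h1
  linarith

lemma glide_not_reflection {t : ℝ} (ht : t ≠ 0) : ¬ IsReflection (glide t) := by
  rintro ⟨q, v, -, hv⟩
  have h0 : glide t q = q := by
    rw [hv q]
    simp [two_smul]
  have h1 := congrArg (fun q : Plane => q 0) h0
  simp only [glide_zero] at h1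
  apply ht
  linarith

lemma image_graph (φ : Plane ≃ᵢ Plane) (t ε : ℝ) (hε : ε * ε = 1) (h0 : ∀ p, φ p 0 = p 0 + t)
    (h1 : ∀ p, φ p 1 = ε * p 1) (g h : ℝ → ℝ) (hg : ∀ x, h (x + t) = ε * g x) :
    φ '' graph g = graph h := by
  ext q
  constructor
  · rintro ⟨p, hp, rfl⟩
    show φ p 1 = h (φ p 0)
    rw [h0, h1, hg, show p 1 = g (p 0) from hp]
  · intro hq
    refine ⟨φ.symm q, ?_, φ.apply_symm_apply q⟩
    have h2 := h0 (φ.symm q)
    have h3 := h1 (φ.symm q)
    rw [φ.apply_symm_apply] at h2 h3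
    show (φ.symm q) 1 = g ((φ.symm q) 0)
    have h4 : q 1 = h (q 0) := hq
    rw [h2, hg, h3] at h4
    have h5 := congrArg (fun z => ε * z) h4
    simp only at h5
    rw [← mul_assoc, ← mul_assoc, hε, one_mul, one_mul] at h5
    exact h5

/-- **Main theorem.** There is a Borel measurable, vertically rigid function `f`, not of the form
`a + b x`, such that for every `c > 0` some isometry of the plane that is neither a translation
nor a reflection carries `graph (c f)` onto `graph f`. -/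
theorem result : ∃ f : ℝ → ℝ, Measurable f ∧ VerticallyRigid f ∧
    (¬ ∃ a b : ℝ, ∀ x, f x = a + b * x) ∧
    ∀ c : ℝ, 0 < c → ∃ φ : Plane ≃ᵢ Plane, φ '' graph (fun x => c * f x) = graph f ∧
      ¬ IsTranslation φ ∧ ¬ IsReflection φ := by
  refine ⟨f, measurable_f, ?_, ?_, ?_⟩
  · intro c hc
    obtain ⟨t, ht, hA, hB⟩ := exists_G (Real.log c) 0
    refine ⟨trans t, image_graph (trans t) t 1 (by norm_num) (trans_zero t)
      (fun p => by rw [trans_one, one_mul]) _ _ ?_⟩
    intro x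
    rw [f_add_t ht hA hB, Real.exp_log hc, one_mul]
  · rintro ⟨a, b, hab⟩
    obtain ⟨u, hu, hA, hB⟩ := exists_G 0 1
    have h1 := fun x => f_add_u hu hA hB x
    simp only [Real.exp_zero, one_mul] at h1
    have h2 := h1 u
    have h0 := hab u
    have h3 := hab (u + u)
    obtain ⟨z, hz, hA', hB'⟩ := exists_G 0 0
    have h4 := f_of_mem hz
    rw [hA', hB'] at h4
    simp at h4
    have h5 := h1 z
    have h6 := h1 (z + u)
    rw [hab, hab] at h5 h6
    have h7 := hab z
    have h8 : b * u * 2 = 0 := by nlinarith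
    have h9 : a + b * z = 0 := by nlinarith
    rw [h7, h9] at h4
    norm_num at h4
  · intro c hc
    obtain ⟨t, ht, hA, hB⟩ := exists_G (Real.log c) 1
    have ht0 : t ≠ 0 := by
      rintro rfl
      have h2 := (G_add ht ht).2.2
      rw [add_zero, hB] at h2
      norm_num at h2
    refine ⟨glide t, image_graph (glide t) t (-1) (by norm_num) (glide_zero t)
      (fun p => by rw [glide_one]; ring) _ _ ?_, glide_not_translation t,
      glide_not_reflection ht0⟩
    intro x
    rw [f_add_u ht hA hB, Real.exp_log hc]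
    ring

end Pool.Agent.Results.MP_f4f8d7_an.BorelGlide
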